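import Pool.Agent.Helper53.TG.Main

/-!
# Triangular grids in the plane: all linear rates, and the increment inequality

For every `k ≥ 1` the rate `C_{2,k}` exists and equals `3 J (J + 1) / (2 (3 J - k + 1))` with
`J = ⌊(2k+1)/3⌋`. The lower bound is proved by weights on the points where the lines of the cover
which are not parallel to a side of the triangle cross the first line `x_i = j` of multiplicity
less than `s`, for each side `i` and each `s ≤ k`.
-/

set_option autoImplicit false

namespace Pool.Agent.Results.MP_cee158_co.DimensionTwo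

open Pool.Agent.Helper53.TG

/-- For every `k ≥ 1`: `rateTwo k * n ≤ f(n,2,k) ≤ rateTwo k * n + 3 ⌊(2k+1)/3⌋` for all `n ≥ 1`;
hence `C_{2,k}` exists and is `rateTwo k`; and `C_{2,k+3} ≥ C_{2,k} + 2`. -/
theorem result (k : ℕ) (hk : 1 ≤ k) :
    (∀ n : ℕ, 1 ≤ n → rateTwo k * n ≤ (f n 2 k : ℝ) ∧
      (f n 2 k : ℝ) ≤ rateTwo k * n + 3 * idx k) ∧
    IsRate 2 k (rateTwo k) ∧
    ∀ C C' : ℝ, IsRate 2 k C → IsRate 2 (k + 3) C' → C + 2 ≤ C' := by
  refine ⟨fun n hn => ⟨lower_two hn hk, upper_two hn hk⟩, isRate_two hk, ?_⟩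
  intro C C' hC hC'
  rw [rate_unique hC (isRate_two hk), rate_unique hC' (isRate_two (by omega))]
  exact increment_two hk

end Pool.Agent.Results.MP_cee158_co.DimensionTwo
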