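import Pool.Agent.Helper23.CE.Fast

/-!
# High dimension: the increment inequality away from the ties

Q1 holds for `(d,k)` as soon as `r = 2(k-1) mod (d+1)` satisfies
`(J+1)(J+2)(6J²+40J+67)(d+1) ≤ 2 r (d+1-r)`, where `J = 1 + ⌊2(k-1)/(d+1)⌋`. This holds if
`r` and `d+1-r` are at least `(J+1)(J+2)(6J²+40J+67)`: only the `k` for which `2(k-1)` is within
a constant, depending on `J` alone, of a multiple of `d+1` are left out.
-/

set_option autoImplicit false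

namespace Pool.Agent.Results.MP_cee158_co.HighDimIncrement

open Pool.Agent.Helper53.TG Pool.Agent.Helper23.CE

/-- Let `d, k ≥ 1`, `J = 1 + ⌊2(k-1)/(d+1)⌋`, `r = 2(k-1) mod (d+1)` and
`(J+1)(J+2)(6J²+40J+67)(d+1) ≤ 2 r (d+1-r)`. Then
`f(n,d,k) + 2n ≤ f(n,d,k+(d+1)) + (d+1) J` for all `n ≥ 1`, hence `C + 2 ≤ C'` whenever both
constants exist. -/
theorem result (d k : ℕ) (hd : 1 ≤ d) (hk : 1 ≤ k)
    (hoff : (ind d k + 1) * (ind d k + 2) * (6 * ind d k ^ 2 + 40 * ind d k + 67) * (d + 1) ≤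
      2 * (2 * (k - 1) % (d + 1)) * (d + 1 - 2 * (k - 1) % (d + 1))) :
    (∀ n : ℕ, 1 ≤ n → (f n d k : ℝ) + 2 * n ≤
      (f n d (k + (d + 1)) : ℝ) + ((d : ℝ) + 1) * ind d k) ∧
    ∀ C C' : ℝ, IsRate d k C → IsRate d (k + (d + 1)) C' → C + 2 ≤ C' :=
  ⟨fun _ hn => increment_fast hd hk rfl rfl hoff hn,
    fun _ _ hC hC' => increment_off hd hk hoff hC hC'⟩

end Pool.Agent.Results.MP_cee158_co.HighDimIncrement
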