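import Pool.Agent.Helper23.CE.Fast

/-!
# High dimension: the conjectured rates up to a factor `1 - O(1/d)`

The lower bound is proved by induction on the dimension. A `(K+1)`-cover is restricted to two
slices `x_i = u`, `x_i = v` at once, the first ones of multiplicity at most `s` and `S - 1 - s`,
averaged over `s < S` and over the directions `i` and `j` with few planes parallel to the facets;
this gives a recursion for the lower bounds with no variance, solved exactly up to a bounded
reserve.
-/

set_option autoImplicit false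

namespace Pool.Agent.Results.MP_cee158_co.HighDimRate

open Pool.Agent.Helper53.TG Pool.Agent.Helper23.CE

/-- For all `d, k, n ≥ 1`: `(1 - e) R n ≤ f(n,d,k) ≤ R n + (d+1) J`, where `R` is the conjectured
rate, `J = 1 + ⌊2(k-1)/(d+1)⌋` and `e = errm d k` is the smaller of
`64 ((k-1)/(d+1) + 2)/(d+1)` and `20 √(log(d+1)/(d+1))`. Hence the increment inequality with the
factor `1 - e'`, `e' = errm d (k+(d+1))`: `(1 - e') (f(n,d,k) + 2n) ≤ f(n,d,k+(d+1)) + (d+1) J`
for all `n ≥ 1`, and `(1 - e') (C + 2) ≤ C'` whenever both constants exist. -/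
theorem result (d k : ℕ) (hd : 1 ≤ d) (hk : 1 ≤ k) :
    (∀ n : ℕ, 1 ≤ n → (1 - errm d k) * rate d k * n ≤ (f n d k : ℝ) ∧
      (f n d k : ℝ) ≤ rate d k * n + ((d : ℝ) + 1) * ind d k) ∧
    (∀ n : ℕ, 1 ≤ n → (1 - errm d (k + (d + 1))) * ((f n d k : ℝ) + 2 * n) ≤
      (f n d (k + (d + 1)) : ℝ) + ((d : ℝ) + 1) * ind d k) ∧
    ∀ C C' : ℝ, IsRate d k C → IsRate d (k + (d + 1)) C' →
      (1 - errm d (k + (d + 1))) * (C + 2) ≤ C' :=
  ⟨fun _ hn => ⟨lower_min hd hk hn, upper' hd hk hn⟩,
    fun _ hn => increment_approx_min hd hk hn,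
    fun _ _ hC hC' => increment_min hd hk hC hC'⟩

end Pool.Agent.Results.MP_cee158_co.HighDimRate
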