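import Pool.Agent.Helper98.CE.Limit

/-!
# The linear rate exists for all `d` and `k`

For all `d ≥ 1` and `k` the limit `c(d,k)` of `f(n,d,k)/n` exists, and it is the supremum of `f(n,d,k)/(n+d-1)`: restriction of a cover to the residue
classes modulo a prime `q` gives `q f(n,d,k) ≤ f(q(n+d-1)-(d-1),d,k)`. Hence the rates in Q1 are compared by finite inequalities.
-/

set_option autoImplicit false

namespace Pool.Agent.Results.MP_cee158_co.RateLimit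

open Pool.Agent.Helper53.TG Filter Topology

/-- For all `d ≥ 1` and all `k`: (1) `q f(n,d,k) ≤ f(q(n+d-1)-(d-1),d,k)` for all `q` and all `n ≥ 1`. (2) There is a real `c` with `f(n,d,k)/n → c`; it is the
supremum of `f(n,d,k)/(n+d-1)`, `n ≥ 1`; and `C_{d,k}` exists if and only if `f(n,d,k) ≥ c n - B` for some `B` and all `n ≥ 1`, and then `C_{d,k} = c`.
(3) If `C_{d,k} = C` and `C_{d,k+(d+1)} = C'`, then `C' < C + 2` if and only if `f(n,d,k) > (C'-2)(n+d-1)` for some `n ≥ 1`, and `C' > C + 2` if and only if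
`f(n,d,k+(d+1)) > (C+2)(n+d-1)` for some `n ≥ 1`. -/
theorem result (d k : ℕ) (hd : 1 ≤ d) :
    (∀ q n : ℕ, 1 ≤ n → q * f n d k ≤ f (q * (n + d - 1) - (d - 1)) d k) ∧
    (∃ c : ℝ, Tendsto (fun n => (f n d k : ℝ) / n) atTop (𝓝 c) ∧
      IsLUB {t : ℝ | ∃ n : ℕ, 1 ≤ n ∧ t = (f n d k : ℝ) / ((n : ℝ) + d - 1)} c ∧
      ∀ C : ℝ, IsRate d k C ↔ C = c ∧ ∃ B : ℝ, ∀ n : ℕ, 1 ≤ n → c * n - B ≤ (f n d k : ℝ)) ∧
    ∀ C C' : ℝ, IsRate d k C → IsRate d (k + (d + 1)) C' →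
      (C' < C + 2 ↔ ∃ n : ℕ, 1 ≤ n ∧ (C' - 2) * ((n : ℝ) + d - 1) < (f n d k : ℝ)) ∧
      (C + 2 < C' ↔ ∃ n : ℕ, 1 ≤ n ∧
        (C + 2) * ((n : ℝ) + d - 1) < (f n d (k + (d + 1)) : ℝ)) := by
  refine ⟨fun q n hn => Pool.Agent.Helper98.CE.superadd hd q n hn,
    Pool.Agent.Helper98.CE.rate_limit d k hd, ?_⟩
  have hpos : ∀ n : ℕ, 1 ≤ n → (0 : ℝ) < (n : ℝ) + d - 1 := by
    intro n hn
    have h1 : (1 : ℝ) ≤ n := by exact_mod_cast hn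
    have h2 : (1 : ℝ) ≤ d := by exact_mod_cast hd
    linarith
  have key : ∀ (k' : ℕ) (C s : ℝ), IsRate d k' C →
      (s < C ↔ ∃ n : ℕ, 1 ≤ n ∧ s * ((n : ℝ) + d - 1) < (f n d k' : ℝ)) := by
    intro k' C s hC
    obtain ⟨c, -, hlub, hiff⟩ := Pool.Agent.Helper98.CE.rate_limit d k' hd
    obtain ⟨rfl, -⟩ := (hiff C).mp hC
    rw [lt_isLUB_iff hlub]
    constructor
    · rintro ⟨t, ⟨n, hn, rfl⟩, ht⟩
      exact ⟨n, hn, by rwa [lt_div_iff₀ (hpos n hn)] at ht⟩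
    · rintro ⟨n, hn, h⟩
      exact ⟨_, ⟨n, hn, rfl⟩, by rwa [lt_div_iff₀ (hpos n hn)]⟩
  intro C C' hC hC'
  refine ⟨?_, key _ C' (C + 2) hC'⟩
  rw [← key _ C (C' - 2) hC]
  constructor <;> intro h <;> linarith

end Pool.Agent.Results.MP_cee158_co.RateLimit
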